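import Pool.Agent.Q205.DG.Stm

/-!
# Project DG, job IND: forcing independence in the plane
-/

set_option autoImplicit false

namespace Pool.Agent.Q224.DG

open Pool.Agent.Helper743 Pool.Agent.H166R3.HD Pool.Agent.Q205.DG
open MeasureTheory Filter Topology
open scoped Classical ENNReal

/-- the finite stage of the failure of independence from level `N` on -/
def DX (ev : List ℕ → ℕ → Option ℕ) (k N t a b : ℕ) : Prop :=
  ∃ m < t+1, N ≤ m ∧ (∀ i < m, 0 < Encodable.encode (ev (seg G0 t a) i)) ∧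
    Far k (dis (fun i => Encodable.encode (ev (seg G0 t a) i) - 1) m b) m

theorem rp_dx {ev : List ℕ → ℕ → Option ℕ} (hev : Computable₂ ev) (k N : ℕ) :
    RP ∅ (fun z => DX ev k N z.unpair.1 z.unpair.2.unpair.1 z.unpair.2.unpair.2) := by
  have hG : RecT ∅ G0 := recT_const 0
  -- `w = pair (pair z m) i`
  have he : RecT ∅ (fun w => Encodable.encode (ev (seg G0 w.unpair.1.unpair.1.unpair.1
      w.unpair.1.unpair.1.unpair.2.unpair.1) w.unpair.2)) :=
    RecT.ev hev (RecT.seg hG (RecT.fst (RecT.fst (RecT.fst recT_id)))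
      (RecT.fst (RecT.snd (RecT.fst (RecT.fst recT_id))))) (RecT.snd recT_id)
  have hm : RecT ∅ (fun u : ℕ => u.unpair.2) := RecT.snd recT_id
  have hball : RP ∅ (fun u => ∀ i < u.unpair.2, 0 < Encodable.encode
      (ev (seg G0 u.unpair.1.unpair.1 u.unpair.1.unpair.2.unpair.1) i)) := by
    refine RP.congr (RP.ball (RP.lt (recT_const 0) he) hm) ?_
    intro u; simp
  have hcount : RecT ∅ (fun u => dis (fun i => Encodable.encode
      (ev (seg G0 u.unpair.1.unpair.1 u.unpair.1.unpair.2.unpair.1) i) - 1) u.unpair.2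
      u.unpair.1.unpair.2.unpair.2) := by
    have hp : RP ∅ (fun w => ¬ ((Encodable.encode (ev (seg G0 w.unpair.1.unpair.1.unpair.1
        w.unpair.1.unpair.1.unpair.2.unpair.1) w.unpair.2) - 1) = 1 ↔
        w.unpair.1.unpair.1.unpair.2.unpair.2 / 2^w.unpair.2 % 2 = 1)) :=
      RP.not (RP.iff (RP.eq (RecT.sub he (recT_const 1)) (recT_const 1))
        (RP.eq (RecT.mod (RecT.div (RecT.snd (RecT.snd (RecT.fst (RecT.fst recT_id))))
          (RecT.twopow (RecT.snd recT_id))) (recT_const 2)) (recT_const 1)))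
    refine RecT.congr (RecT.count hp hm) ?_
    intro u
    simp [dis]
  have h1 := RP.and (RP.le (recT_const N) hm) (RP.and hball
    (RP.lt (RecT.mul (recT_const (k + 1)) hm) (RecT.mul (recT_const (2 * k)) hcount)))
  refine RP.congr (RP.bex h1 (RecT.add (RecT.fst recT_id) (recT_const 1))) ?_
  intro z
  simp [DX, Far]

/-- the value of the functional at a point -/
noncomputable def vv (ev : List ℕ → ℕ → Option ℕ) (X : ℕ → Bool) (i : ℕ) : ℕ :=
  if h : ∃ y t, ev (pre (J G0 X) t) i = some y then h.choose else 0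

theorem ev_unique {ev : List ℕ → ℕ → Option ℕ} (hm : Mono ev) {X : ℕ → Bool} {i t t' y y' : ℕ}
    (h : ev (pre (J G0 X) t) i = some y) (h' : ev (pre (J G0 X) t') i = some y') : y = y' := by
  have h1 := hm _ _ _ _ (pre_prefix (J G0 X) (le_max_left t t')) h
  have h2 := hm _ _ _ _ (pre_prefix (J G0 X) (le_max_right t t')) h'
  rw [h1] at h2
  exact Option.some.inj h2

theorem vv_eq {ev : List ℕ → ℕ → Option ℕ} (hm : Mono ev) {X : ℕ → Bool} {i t y : ℕ}
    (h : ev (pre (J G0 X) t) i = some y) : vv ev X i = y := by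
  have hex : ∃ y t, ev (pre (J G0 X) t) i = some y := ⟨y, t, h⟩
  unfold vv
  rw [dif_pos hex]
  obtain ⟨t', ht'⟩ := hex.choose_spec
  exact ev_unique hm ht' h

theorem dx_sub {ev : List ℕ → ℕ → Option ℕ} (hm : Mono ev) {k N t : ℕ} {X Y : ℕ → Bool}
    (h : DX ev k N t (enc X t) (enc Y t)) : ∃ m, N ≤ m ∧ Far k (dis (vv ev X) m (enc Y m)) m := by
  obtain ⟨m, h1, h2, h3, h4⟩ := h
  refine ⟨m, h2, ?_⟩
  rw [← dis_enc _ (show m ≤ t by omega) Y]
  have e : dis (vv ev X) m (enc Y t) =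
      dis (fun i => Encodable.encode (ev (seg G0 t (enc X t)) i) - 1) m (enc Y t) := by
    unfold dis
    congr 1
    apply Finset.filter_congr
    intro i hi
    have h5 := h3 i (Finset.mem_range.1 hi)
    cases hv : ev (seg G0 t (enc X t)) i with
    | none => rw [hv] at h5; simp at h5
    | some y =>
      have hv' := hv
      rw [seg_enc] at hv'
      rw [vv_eq hm hv']
      simp only [hv]
      simp
  rw [e]
  exact h4

theorem dx_of {ev : List ℕ → ℕ → Option ℕ} (hm : Mono ev) {k N : ℕ} {X Y : ℕ → Bool} {u : ℕ → ℕ}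
    (hu : Conv ev X u) {m : ℕ} (hmN : N ≤ m) (hf : Far k (disX u m Y) m) :
    ∃ t, DX ev k N t (enc X t) (enc Y t) := by
  choose T hT using hu
  set t := max m ((Finset.range m).sup T) with ht
  have hkey : ∀ i < m, ev (seg G0 t (enc X t)) i = some (u i) := by
    intro i hi
    rw [seg_enc]
    refine hm _ _ _ _ (pre_prefix _ ?_) (hT i)
    exact le_trans (Finset.le_sup (f := T) (Finset.mem_range.2 hi)) (le_max_right _ _)
  refine ⟨t, m, Nat.lt_succ_of_le (le_max_left _ _), hmN, ?_, ?_⟩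
  · intro i hi
    rw [hkey i hi]; simp
  · rw [disX_eq u (show m ≤ t from le_max_left _ _) Y] at hf
    have e : dis (fun i => Encodable.encode (ev (seg G0 t (enc X t)) i) - 1) m (enc Y t) =
        dis u m (enc Y t) := by
      unfold dis
      congr 1
      apply Finset.filter_congr
      intro i hi
      simp only [hkey i (Finset.mem_range.1 hi)]
      simp
    rw [e]
    exact hf

/-- pairs some finite stage of which fails -/
def BadP (ev : List ℕ → ℕ → Option ℕ) (k N : ℕ) : Set ((ℕ → Bool) × (ℕ → Bool)) :=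
  ⋃ t, {p | DX ev k N t (enc p.1 t) (enc p.2 t)}

theorem meas_enc2 (t : ℕ) (R : ℕ → ℕ → Prop) :
    MeasurableSet {p : (ℕ → Bool) × (ℕ → Bool) | R (enc p.1 t) (enc p.2 t)} := by
  have h : Measurable (fun p : (ℕ → Bool) × (ℕ → Bool) => (enc p.1 t, enc p.2 t)) :=
    ((measurable_enc t).comp measurable_fst).prodMk ((measurable_enc t).comp measurable_snd)
  exact h (MeasurableSet.of_discrete (s := {z : ℕ × ℕ | R z.1 z.2}))

theorem meas_BadP (ev : List ℕ → ℕ → Option ℕ) (k N : ℕ) : MeasurableSet (BadP ev k N) :=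
  MeasurableSet.iUnion fun t => meas_enc2 t (fun a b => DX ev k N t a b)

theorem tail_sum {ρ : ℝ} (h0 : 0 < ρ) (h1 : ρ < 1) (N : ℕ) :
    ∑' j : ℕ, ENNReal.ofReal (ρ ^ (N + j)) = ENNReal.ofReal (ρ ^ N / (1 - ρ)) := by
  have e : ∀ j : ℕ, ρ ^ (N + j) = ρ ^ N * ρ ^ j := fun j => pow_add _ _ _
  rw [← ENNReal.ofReal_tsum_of_nonneg (fun j => by positivity)]
  · congr 1
    simp_rw [e]
    rw [tsum_mul_left, tsum_geometric_of_lt_one h0.le h1]
    rfl
  · simp_rw [e]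
    exact (summable_geometric_of_lt_one h0.le h1).mul_left _

theorem sec_le {ev : List ℕ → ℕ → Option ℕ} (hm : Mono ev) {k : ℕ} {ρ : ℝ} (h0 : 0 < ρ)
    (h1 : ρ < 1) (hρ : ∀ (v : ℕ → ℕ) (m : ℕ), cm.real {X | Far k (dis v m (enc X m)) m} ≤ ρ ^ m)
    (N : ℕ) (X : ℕ → Bool) :
    cm (Prod.mk X ⁻¹' BadP ev k N) ≤ ENNReal.ofReal (ρ ^ N / (1 - ρ)) := by
  have hsub : Prod.mk X ⁻¹' BadP ev k N ⊆
      ⋃ j : ℕ, {Y | Far k (dis (vv ev X) (N + j) (enc Y (N + j))) (N + j)} := by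
    intro Y hY
    obtain ⟨t, ht⟩ := Set.mem_iUnion.1 hY
    obtain ⟨m, hm1, hm2⟩ := dx_sub hm (X := X) (Y := Y) ht
    obtain ⟨j, rfl⟩ := Nat.exists_eq_add_of_le hm1
    exact Set.mem_iUnion.2 ⟨j, hm2⟩
  refine (measure_mono hsub).trans ((measure_iUnion_le _).trans ?_)
  rw [← tail_sum h0 h1 N]
  refine ENNReal.tsum_le_tsum fun j => ?_
  rw [← ENNReal.ofReal_toReal (measure_ne_top cm _)]
  exact ENNReal.ofReal_le_ofReal (hρ (vv ev X) (N + j))

theorem badP_le {ev : List ℕ → ℕ → Option ℕ} (hm : Mono ev) {k : ℕ} {ρ : ℝ} (h0 : 0 < ρ)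
    (h1 : ρ < 1) (hρ : ∀ (v : ℕ → ℕ) (m : ℕ), cm.real {X | Far k (dis v m (enc X m)) m} ≤ ρ ^ m)
    (N : ℕ) : cm2 (BadP ev k N) ≤ ENNReal.ofReal (ρ ^ N / (1 - ρ)) := by
  unfold cm2
  rw [Measure.prod_apply (meas_BadP ev k N)]
  refine (lintegral_mono fun X => sec_le hm h0 h1 hρ N X).trans ?_
  rw [lintegral_const, measure_univ, mul_one]

theorem t_ind : S_TAIL → S_IND := by
  intro TAIL O1 O2 ev hev hm k hk K hK
  obtain ⟨q1, q2, w, hq1, hq2, hw, rfl, hpos⟩ := hK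
  obtain ⟨ρ, h0, h1, hρ⟩ := TAIL k hk
  -- the choice of `N`
  obtain ⟨N, hN⟩ : ∃ N : ℕ, ENNReal.ofReal (ρ ^ N / (1 - ρ)) <
      cm2 ((Cl q1 ×ˢ Cl q2) ∩ Cl2 w) := by
    have hlim : Tendsto (fun N : ℕ => ENNReal.ofReal (ρ ^ N / (1 - ρ))) atTop (𝓝 0) := by
      have h2 : Tendsto (fun N : ℕ => ρ ^ N / (1 - ρ)) atTop (𝓝 (0 / (1 - ρ))) :=
        (tendsto_pow_atTop_nhds_zero_of_lt_one h0.le h1).div_const _
      rw [zero_div] at h2
      have h3 := ENNReal.tendsto_ofReal h2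
      rwa [ENNReal.ofReal_zero] at h3
    exact (hlim.eventually (gt_mem_nhds hpos)).exists
  let w' : ℕ → Prop := fun z => w z ∨ DX ev k N z.unpair.1 z.unpair.2.unpair.1 z.unpair.2.unpair.2
  have hCl : Cl2 w ⊆ Cl2 w' ∪ BadP ev k N := by
    intro p hp
    by_cases h : p ∈ BadP ev k N
    · exact Or.inr h
    · left
      intro n
      have h2 : ¬ DX ev k N n (enc p.1 n) (enc p.2 n) := fun h3 =>
        h (Set.mem_iUnion.2 ⟨n, h3⟩)
      simp only [w', Nat.unpair_pair, not_or]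
      exact ⟨hp n, h2⟩
  refine ⟨(Cl q1 ×ˢ Cl q2) ∩ Cl2 w', ⟨q1, q2, w', hq1, hq2, RP.or hw (rp_dx hev k N), rfl, ?_⟩,
    ?_, ?_⟩
  · by_contra hc
    have hc' : cm2 ((Cl q1 ×ˢ Cl q2) ∩ Cl2 w') = 0 := by simpa using hc
    have hle : cm2 ((Cl q1 ×ˢ Cl q2) ∩ Cl2 w) ≤ ENNReal.ofReal (ρ ^ N / (1 - ρ)) := by
      have hsub : (Cl q1 ×ˢ Cl q2) ∩ Cl2 w ⊆ ((Cl q1 ×ˢ Cl q2) ∩ Cl2 w') ∪ BadP ev k N := by
        rintro p ⟨hp1, hp2⟩
        rcases hCl hp2 with h | h
        · exact Or.inl ⟨hp1, h⟩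
        · exact Or.inr h
      refine (measure_mono hsub).trans ((measure_union_le _ _).trans ?_)
      rw [hc', zero_add]
      exact badP_le hm h0 h1 hρ N
    exact absurd hN (not_lt.2 hle)
  · rintro p ⟨hp1, hp2⟩
    exact ⟨hp1, fun n h => hp2 n (Or.inl h)⟩
  · rintro p ⟨hp1, hp2⟩ u hu
    refine ⟨N, fun m hmN hf => ?_⟩
    obtain ⟨t, ht⟩ := dx_of hm hu hmN hf
    apply hp2 t
    right
    simp only [Nat.unpair_pair]
    exact ht

end Pool.Agent.Q224.DG
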