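import Pool.Agent.Q205.DG.Stm

/-!
# Project DG, job MAJ: the weighted majority vote, recursive in the oracle
-/

set_option autoImplicit false

namespace Pool.Agent.Q224.DG

open Pool.Agent.Helper743 Pool.Agent.H166R3.HD Pool.Agent.Q205.DG
open MeasureTheory Filter Topology
open scoped Classical ENNReal

theorem recT_sum {O : Set (ℕ →. ℕ)} {H b : ℕ → ℕ} (hH : RecT O H) (hb : RecT O b) :
    RecT O (fun z => ∑ i ∈ Finset.range (b z), H (Nat.pair z i)) := by
  have hstep : RecT O (fun z => z.unpair.2.unpair.2 +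
      H (Nat.pair z.unpair.1 z.unpair.2.unpair.1)) := by
    refine RecT.add (RecT.snd (RecT.snd recT_id)) ?_
    exact RecT.comp hH (RecT.pair (RecT.fst recT_id) (RecT.fst (RecT.snd recT_id)))
  have h := RecT.prec (recT_const (O := O) 0) hstep
  have h2 := RecT.comp h (RecT.pair recT_id hb)
  refine RecT.congr h2 ?_
  intro n
  simp only [Nat.unpair_pair]
  generalize b n = m
  induction m with
  | zero => simp
  | succ m ih =>
    rw [Finset.sum_range_succ, ← ih]

theorem primrec_cpow (c : ℕ) : Primrec (fun n : ℕ => c ^ n) := by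
  have h := Primrec.nat_rec (α := ℕ) (β := ℕ) (f := fun _ => 1) (g := fun _ z => c * z.2)
    (Primrec.const 1)
    (Primrec.nat_mul.comp (Primrec.const c) (Primrec.snd.comp Primrec.snd))
  have h2 := h.comp (Primrec.const 0) Primrec.id
  refine h2.of_eq ?_
  intro n
  simp only [id]
  induction n with
  | zero => rfl
  | succ n ih => simp only [ih]; ring

theorem recT_cpow {O : Set (ℕ →. ℕ)} (c : ℕ) {f : ℕ → ℕ} (hf : RecT O f) :
    RecT O (fun n => c ^ f n) := RecT.un (primrec_cpow c) hf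

section vote

variable (ev : List ℕ → ℕ → Option ℕ) (g : ℕ → ℕ) (k : ℕ)

/-- the code of the value at `i` after `g i` bits of `K` -/
def us (K i : ℕ) : ℕ := Encodable.encode (ev (seg G0 (g i) (K % 2 ^ (g i))) i)

/-- the value -/
def uu (K i : ℕ) : ℕ := us ev g K i - 1

/-- convergence at all arguments below `n` -/
def Al (n K : ℕ) : Prop := ∀ i < n, 0 < us ev g K i

/-- the number of errors -/
def EE (n c K : ℕ) : ℕ := dis (uu ev g K) n c

/-- the weight -/
def WW (n c K : ℕ) : ℕ := (k + 1) ^ (2 * EE ev g n c K) * k ^ (2 * (n - EE ev g n c K))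

/-- the votes for one -/
noncomputable def A1 (n c : ℕ) : ℕ := ∑ K ∈ Finset.range (2 ^ (g n)),
  if Al ev g (n + 1) K ∧ uu ev g K n = 1 then WW ev g k n c K else 0

/-- the votes against one -/
noncomputable def A0 (n c : ℕ) : ℕ := ∑ K ∈ Finset.range (2 ^ (g n)),
  if Al ev g (n + 1) K ∧ ¬ uu ev g K n = 1 then WW ev g k n c K else 0

/-- the result of the vote -/
noncomputable def FF (n c : ℕ) : ℕ := if A0 ev g k n c ≤ A1 ev g k n c then 1 else 0

/-- the code of the first `n` results -/
noncomputable def cc : ℕ → ℕ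
  | 0 => 0
  | n+1 => cc n + 2 ^ n * FF ev g k n (cc n)

/-- the results -/
noncomputable def vt (n : ℕ) : ℕ := FF ev g k n (cc ev g k n)

end vote

section rec

variable {O : Set (ℕ →. ℕ)} {ev : List ℕ → ℕ → Option ℕ} {g : ℕ → ℕ} (k : ℕ)

theorem rec_us (hev : Computable₂ ev) (hg : RecT O g) {K i : ℕ → ℕ} (hK : RecT O K)
    (hi : RecT O i) : RecT O (fun z => us ev g (K z) (i z)) :=
  RecT.ev hev (RecT.seg (recT_const 0) (RecT.comp hg hi)
    (RecT.mod hK (RecT.twopow (RecT.comp hg hi)))) hi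

theorem rec_uu (hev : Computable₂ ev) (hg : RecT O g) {K i : ℕ → ℕ} (hK : RecT O K)
    (hi : RecT O i) : RecT O (fun z => uu ev g (K z) (i z)) :=
  RecT.sub (rec_us hev hg hK hi) (recT_const 1)

theorem rp_al (hev : Computable₂ ev) (hg : RecT O g) {n K : ℕ → ℕ} (hn : RecT O n)
    (hK : RecT O K) : RP O (fun z => Al ev g (n z) (K z)) := by
  have h1 : RP O (fun w => 0 < us ev g (K w.unpair.1) w.unpair.2) :=
    RP.lt (recT_const 0) (rec_us hev hg (RecT.comp hK (RecT.fst recT_id)) (RecT.snd recT_id))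
  refine RP.congr (RP.ball h1 hn) ?_
  intro z
  simp [Al]

theorem rec_EE (hev : Computable₂ ev) (hg : RecT O g) {n c K : ℕ → ℕ} (hn : RecT O n)
    (hc : RecT O c) (hK : RecT O K) : RecT O (fun z => EE ev g (n z) (c z) (K z)) := by
  have h1 : RP O (fun w => ¬ (uu ev g (K w.unpair.1) w.unpair.2 = 1 ↔
      c w.unpair.1 / 2 ^ w.unpair.2 % 2 = 1)) :=
    RP.not (RP.iff (RP.eq (rec_uu hev hg (RecT.comp hK (RecT.fst recT_id)) (RecT.snd recT_id))
      (recT_const 1)) (RP.eq (RecT.mod (RecT.div (RecT.comp hc (RecT.fst recT_id))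
        (RecT.twopow (RecT.snd recT_id))) (recT_const 2)) (recT_const 1)))
  refine RecT.congr (RecT.count h1 hn) ?_
  intro z
  simp [EE, dis]

theorem rec_WW (hev : Computable₂ ev) (hg : RecT O g) {n c K : ℕ → ℕ} (hn : RecT O n)
    (hc : RecT O c) (hK : RecT O K) : RecT O (fun z => WW ev g k (n z) (c z) (K z)) := by
  have h := rec_EE hev hg hn hc hK
  exact RecT.mul (recT_cpow (k + 1) (RecT.mul (recT_const 2) h))
    (recT_cpow k (RecT.mul (recT_const 2) (RecT.sub hn h)))

theorem rec_FF (hev : Computable₂ ev) (hg : RecT O g) :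
    RecT O (fun z => FF ev g k z.unpair.1 z.unpair.2) := by
  -- `w = pair z K`
  have hn : RecT O (fun w : ℕ => w.unpair.1.unpair.1) := RecT.fst (RecT.fst recT_id)
  have hc : RecT O (fun w : ℕ => w.unpair.1.unpair.2) := RecT.snd (RecT.fst recT_id)
  have hK : RecT O (fun w : ℕ => w.unpair.2) := RecT.snd recT_id
  have hW := rec_WW k hev hg hn hc hK
  have hal := rp_al hev hg (RecT.add hn (recT_const 1)) hK
  have hu := RP.eq (rec_uu hev hg hK hn) (recT_const 1)
  have hb : RecT O (fun z => 2 ^ g z.unpair.1) := RecT.twopow (RecT.comp hg (RecT.fst recT_id))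
  have h1 : RecT O (fun z => A1 ev g k z.unpair.1 z.unpair.2) := by
    refine RecT.congr (recT_sum (RecT.ite (RP.and hal hu) hW (recT_const 0)) hb) ?_
    intro z
    simp [A1]
  have h0 : RecT O (fun z => A0 ev g k z.unpair.1 z.unpair.2) := by
    refine RecT.congr (recT_sum (RecT.ite (RP.and hal (RP.not hu)) hW (recT_const 0)) hb) ?_
    intro z
    simp [A0]
  refine RecT.congr (RecT.ite (RP.le h0 h1) (recT_const 1) (recT_const 0)) ?_
  intro z
  simp [FF]

theorem rec_cc (hev : Computable₂ ev) (hg : RecT O g) : RecT O (cc ev g k) := by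
  have hstep : RecT O (fun z => z.unpair.2.unpair.2 + 2 ^ z.unpair.2.unpair.1 *
      FF ev g k z.unpair.2.unpair.1 z.unpair.2.unpair.2) := by
    refine RecT.add (RecT.snd (RecT.snd recT_id)) (RecT.mul
      (RecT.twopow (RecT.fst (RecT.snd recT_id))) ?_)
    refine RecT.congr (RecT.comp (rec_FF k hev hg) (RecT.snd (recT_id (O := O)))) ?_
    intro z
    rfl
  have h := RecT.prec (recT_const (O := O) 0) hstep
  have h2 := RecT.comp h (RecT.pair (recT_const 0) recT_id)
  refine RecT.congr h2 ?_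
  intro n
  simp only [Nat.unpair_pair]
  induction n with
  | zero => rfl
  | succ n ih =>
    simp only [ih]
    rfl

theorem rec_vt (hev : Computable₂ ev) (hg : RecT O g) : RecT O (vt ev g k) := by
  refine RecT.congr (RecT.comp (rec_FF k hev hg) (RecT.pair recT_id (rec_cc k hev hg))) ?_
  intro n
  simp [vt]

end rec

section facts

variable {ev : List ℕ → ℕ → Option ℕ} {g : ℕ → ℕ} (k : ℕ)

theorem vt_le (n : ℕ) : vt ev g k n ≤ 1 := by
  unfold vt FF
  split_ifs <;> omega

/-- the results as a point -/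
noncomputable def vp (ev : List ℕ → ℕ → Option ℕ) (g : ℕ → ℕ) (k : ℕ) : ℕ → Bool :=
  fun n => decide (vt ev g k n = 1)

theorem vp_toNat (n : ℕ) : (vp ev g k n).toNat = vt ev g k n := by
  have h := vt_le (ev := ev) (g := g) k n
  unfold vp
  by_cases h1 : vt ev g k n = 1
  · simp [h1]
  · have h2 : vt ev g k n = 0 := by omega
    simp [h2]

theorem cc_enc (n : ℕ) : cc ev g k n = enc (vp ev g k) n := by
  induction n with
  | zero => rfl
  | succ n ih =>
    show cc ev g k n + 2 ^ n * FF ev g k n (cc ev g k n) = enc (vp ev g k) n +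
      2 ^ n * (vp ev g k n).toNat
    rw [vp_toNat, ← ih]
    rfl

theorem cc_bit {n i : ℕ} (h : i < n) : cc ev g k n / 2 ^ i % 2 = vt ev g k i := by
  rw [cc_enc, enc_bit _ h, vp_toNat]

theorem dis_congr_cc (u : ℕ → ℕ) (n : ℕ) :
    dis u n (cc ev g k (n + 1)) = dis u n (cc ev g k n) := by
  unfold dis
  congr 1
  apply Finset.filter_congr
  intro i hi
  have hi' := Finset.mem_range.1 hi
  rw [cc_bit k (show i < n + 1 by omega), cc_bit k hi']

theorem dis_dd (u : ℕ → ℕ) (n : ℕ) : dis u n (cc ev g k n) = dd u (vt ev g k) n := by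
  unfold dis dd
  congr 1
  apply Finset.filter_congr
  intro i hi
  rw [cc_bit k (Finset.mem_range.1 hi)]

theorem us_mod {L K i : ℕ} (h : g i ≤ L) : us ev g (K % 2 ^ L) i = us ev g K i := by
  unfold us
  rw [Nat.mod_mod_of_dvd _ (pow_dvd_pow 2 h)]

theorem al_mod {L K n : ℕ} (h : ∀ i < n, g i ≤ L) : Al ev g n (K % 2 ^ L) ↔ Al ev g n K := by
  unfold Al
  refine forall₂_congr fun i hi => ?_
  rw [us_mod (h i hi)]

theorem EE_mod {L K n c : ℕ} (h : ∀ i < n, g i ≤ L) : EE ev g n c (K % 2 ^ L) = EE ev g n c K := by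
  unfold EE dis
  congr 1
  apply Finset.filter_congr
  intro i hi
  have e : uu ev g (K % 2 ^ L) i = uu ev g K i := by
    unfold uu
    rw [us_mod (h i (Finset.mem_range.1 hi))]
  rw [e]

theorem EE_le (n c K : ℕ) : EE ev g n c K ≤ n := by
  unfold EE dis
  refine (Finset.card_filter_le _ _).trans ?_
  rw [Finset.card_range]

theorem sum_mod (f : ℕ → ℝ) (L d : ℕ) :
    ∑ K ∈ Finset.range (2 ^ (L + d)), f (K % 2 ^ L) = 2 ^ d * ∑ K ∈ Finset.range (2 ^ L), f K := by
  induction d with
  | zero =>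
    rw [pow_zero, one_mul, Nat.add_zero]
    refine Finset.sum_congr rfl fun K hK => ?_
    rw [Nat.mod_eq_of_lt (Finset.mem_range.1 hK)]
  | succ d ih =>
    have h2 : 2 ^ (L + (d + 1)) = 2 ^ (L + d) + 2 ^ (L + d) := by ring
    rw [h2, Finset.sum_range_add, ih]
    have e : ∀ K ∈ Finset.range (2 ^ (L + d)), f ((2 ^ (L + d) + K) % 2 ^ L) = f (K % 2 ^ L) := by
      intro K _
      congr 1
      rw [pow_add, Nat.mul_add_mod]
    rw [Finset.sum_congr rfl e, ih]
    ring

theorem WW_real {k : ℕ} (hk : 1 ≤ k) (n c K : ℕ) :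
    (WW ev g k n c K : ℝ) = (k : ℝ) ^ (2 * n) * (((k : ℝ) + 1) / k) ^ (2 * EE ev g n c K) := by
  have hk0 : (k : ℝ) ≠ 0 := by positivity
  unfold WW
  push_cast
  have h := EE_le (ev := ev) (g := g) n c K
  have e : 2 * n = 2 * EE ev g n c K + 2 * (n - EE ev g n c K) := by omega
  rw [e, pow_add, div_pow]
  field_simp

/-- the majority vote bounds the total weight -/
theorem total_le {k : ℕ} (hk : 1 ≤ k) (hmono : Monotone g) (n : ℕ) : ∀ L, (∀ i < n, g i ≤ L) →
    ∑ K ∈ Finset.range (2 ^ L), (if Al ev g n K then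
      (((k : ℝ) + 1) / k) ^ (2 * EE ev g n (cc ev g k n) K) else 0) ≤
      2 ^ L * ((1 + (((k : ℝ) + 1) / k) ^ 2) / 2) ^ n := by
  set s : ℝ := ((k : ℝ) + 1) / k with hs
  have hk0 : (0 : ℝ) < k := by positivity
  have hs1 : 1 ≤ s := by
    rw [hs, le_div_iff₀ hk0]
    linarith
  induction n with
  | zero =>
    intro L _
    rw [pow_zero, mul_one]
    refine (Finset.sum_le_sum (g := fun _ => (1 : ℝ)) fun K _ => ?_).trans ?_
    · split_ifs
      · simp [EE, dis]
      · norm_num
    · simp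
  | succ n ih =>
    intro L hL
    have hgn : g n ≤ L := hL n (Nat.lt_succ_self n)
    have hgi : ∀ i < n + 1, g i ≤ g n := fun i hi => hmono (by omega)
    obtain ⟨d, rfl⟩ := Nat.exists_eq_add_of_le hgn
    set h : ℕ → ℝ := fun K => if Al ev g (n + 1) K then
      s ^ (2 * EE ev g (n + 1) (cc ev g k (n + 1)) K) else 0 with hh
    have e1 : ∀ K, h (K % 2 ^ (g n)) = h K := by
      intro K
      simp only [hh, al_mod hgi, EE_mod hgi]
    have e2 : ∑ K ∈ Finset.range (2 ^ (g n + d)), h K =
        2 ^ d * ∑ K ∈ Finset.range (2 ^ (g n)), h K := by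
      rw [← sum_mod h (g n) d]
      exact Finset.sum_congr rfl fun K _ => (e1 K).symm
    set a : ℝ := ∑ K ∈ Finset.range (2 ^ (g n)), (if Al ev g (n + 1) K ∧ uu ev g K n = 1 then
      s ^ (2 * EE ev g n (cc ev g k n) K) else 0) with ha
    set b : ℝ := ∑ K ∈ Finset.range (2 ^ (g n)), (if Al ev g (n + 1) K ∧ ¬ uu ev g K n = 1 then
      s ^ (2 * EE ev g n (cc ev g k n) K) else 0) with hb
    have hA1 : (A1 ev g k n (cc ev g k n) : ℝ) = (k : ℝ) ^ (2 * n) * a := by
      unfold A1
      rw [ha, Finset.mul_sum]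
      push_cast
      refine Finset.sum_congr rfl fun K _ => ?_
      split_ifs
      · exact WW_real hk n _ K
      · rw [mul_zero]
    have hA0 : (A0 ev g k n (cc ev g k n) : ℝ) = (k : ℝ) ^ (2 * n) * b := by
      unfold A0
      rw [hb, Finset.mul_sum]
      push_cast
      refine Finset.sum_congr rfl fun K _ => ?_
      split_ifs
      · exact WW_real hk n _ K
      · rw [mul_zero]
    have hkn : (0 : ℝ) < (k : ℝ) ^ (2 * n) := by positivity
    have hEE : ∀ K, EE ev g (n + 1) (cc ev g k (n + 1)) K = EE ev g n (cc ev g k n) K +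
        (if (uu ev g K n = 1 ↔ vt ev g k n = 1) then 0 else 1) := by
      intro K
      unfold EE
      rw [dis_succ, dis_congr_cc, cc_bit k (Nat.lt_succ_self n)]
    have hab : a + b ≤ 2 ^ (g n) * ((1 + s ^ 2) / 2) ^ n := by
      refine le_trans ?_ (ih (g n) fun i hi => hmono hi.le)
      rw [ha, hb, ← Finset.sum_add_distrib]
      refine Finset.sum_le_sum fun K _ => ?_
      have hal : Al ev g (n + 1) K → Al ev g n K := fun h i hi => h i (by omega)
      have hp : 0 ≤ s ^ (2 * EE ev g n (cc ev g k n) K) := by positivity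
      by_cases h1 : Al ev g (n + 1) K
      · by_cases h2 : uu ev g K n = 1
        · simp [h1, h2, hal h1]
        · simp [h1, h2, hal h1]
      · simp only [h1, false_and, if_false, add_zero]
        split_ifs
        · exact hp
        · exact le_rfl
    have ha0 : 0 ≤ a := Finset.sum_nonneg fun K _ => by split_ifs <;> positivity
    have hb0 : 0 ≤ b := Finset.sum_nonneg fun K _ => by split_ifs <;> positivity
    have hsum : ∑ K ∈ Finset.range (2 ^ (g n)), h K ≤ (1 + s ^ 2) / 2 * (a + b) := by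
      have hs2 : 1 ≤ s ^ 2 := one_le_pow₀ hs1
      by_cases hv : A0 ev g k n (cc ev g k n) ≤ A1 ev g k n (cc ev g k n)
      · have hv1 : vt ev g k n = 1 := by
          unfold vt FF
          rw [if_pos hv]
        have hba : b ≤ a := by
          have h3 : (A0 ev g k n (cc ev g k n) : ℝ) ≤ A1 ev g k n (cc ev g k n) := by
            exact_mod_cast hv
          rw [hA1, hA0] at h3
          exact le_of_mul_le_mul_left h3 hkn
        have e3 : ∑ K ∈ Finset.range (2 ^ (g n)), h K = a + s ^ 2 * b := by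
          rw [ha, hb, Finset.mul_sum, ← Finset.sum_add_distrib]
          refine Finset.sum_congr rfl fun K _ => ?_
          simp only [hh, hEE, hv1]
          by_cases h1 : Al ev g (n + 1) K
          · by_cases h2 : uu ev g K n = 1
            · simp [h1, h2]
            · simp [h1, h2]
              ring
          · simp [h1]
        rw [e3]
        nlinarith
      · have hv0 : ¬ vt ev g k n = 1 := by
          unfold vt FF
          rw [if_neg hv]
          omega
        have hba : a ≤ b := by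
          have h3 : (A1 ev g k n (cc ev g k n) : ℝ) ≤ A0 ev g k n (cc ev g k n) := by
            exact_mod_cast (not_le.1 hv).le
          rw [hA1, hA0] at h3
          exact le_of_mul_le_mul_left h3 hkn
        have e3 : ∑ K ∈ Finset.range (2 ^ (g n)), h K = s ^ 2 * a + b := by
          rw [ha, hb, Finset.mul_sum, ← Finset.sum_add_distrib]
          refine Finset.sum_congr rfl fun K _ => ?_
          simp only [hh, hEE, hv0]
          by_cases h1 : Al ev g (n + 1) K
          · by_cases h2 : uu ev g K n = 1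
            · simp [h1, h2]
              ring
            · simp [h1, h2]
          · simp [h1]
        rw [e3]
        nlinarith
    rw [e2]
    calc (2 : ℝ) ^ d * ∑ K ∈ Finset.range (2 ^ (g n)), h K
        ≤ 2 ^ d * ((1 + s ^ 2) / 2 * (a + b)) := by gcongr
      _ ≤ 2 ^ d * ((1 + s ^ 2) / 2 * (2 ^ (g n) * ((1 + s ^ 2) / 2) ^ n)) := by gcongr
      _ = 2 ^ (g n + d) * ((1 + s ^ 2) / 2) ^ (n + 1) := by
          rw [pow_add, pow_succ]
          ring

/-- the failures at `n` -/
def BB (ev : List ℕ → ℕ → Option ℕ) (g : ℕ → ℕ) (k n K : ℕ) : Prop :=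
  Al ev g n K ∧ Far k (EE ev g n (cc ev g k n) K) n

theorem card_BB {k : ℕ} (hk : 1 ≤ k) (hmono : Monotone g) {ρ : ℝ} (h0 : 0 < ρ)
    (hρ : ∀ d m : ℕ, Far k d m → (1 + (((k : ℝ) + 1) / k) ^ 2) ^ m ≤
      (2 * ρ) ^ m * (((k : ℝ) + 1) / k) ^ (2 * d)) (n L : ℕ) (hL : ∀ i < n, g i ≤ L) :
    cm.real {X | BB ev g k n (enc X L)} ≤ ρ ^ n := by
  rw [cm_encset_real L (fun K => BB ev g k n K), div_le_iff₀ (by positivity)]
  set s : ℝ := ((k : ℝ) + 1) / k with hs
  have hk0 : (0 : ℝ) < k := by positivity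
  have hs0 : 0 < s := by positivity
  have h1 := total_le (ev := ev) hk hmono n L hL
  rw [← hs] at h1
  have h2 : (((Finset.range (2 ^ L)).filter (fun K => BB ev g k n K)).card : ℝ) *
      (1 + s ^ 2) ^ n ≤ (2 * ρ) ^ n * ∑ K ∈ Finset.range (2 ^ L), (if Al ev g n K then
        s ^ (2 * EE ev g n (cc ev g k n) K) else 0) := by
    calc (((Finset.range (2 ^ L)).filter (fun K => BB ev g k n K)).card : ℝ) * (1 + s ^ 2) ^ n
        = ∑ K ∈ (Finset.range (2 ^ L)).filter (fun K => BB ev g k n K), (1 + s ^ 2) ^ n := by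
          rw [Finset.sum_const, nsmul_eq_mul]
      _ ≤ ∑ K ∈ (Finset.range (2 ^ L)).filter (fun K => BB ev g k n K),
          (2 * ρ) ^ n * (if Al ev g n K then s ^ (2 * EE ev g n (cc ev g k n) K) else 0) := by
          refine Finset.sum_le_sum fun K hK => ?_
          have h3 := (Finset.mem_filter.1 hK).2
          rw [if_pos h3.1]
          exact hρ _ _ h3.2
      _ ≤ ∑ K ∈ Finset.range (2 ^ L),
          (2 * ρ) ^ n * (if Al ev g n K then s ^ (2 * EE ev g n (cc ev g k n) K) else 0) := by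
          refine Finset.sum_le_sum_of_subset_of_nonneg (Finset.filter_subset _ _) ?_
          intro K _ _
          split_ifs <;> positivity
      _ = _ := by rw [Finset.mul_sum]
  have h3 : (((Finset.range (2 ^ L)).filter (fun K => BB ev g k n K)).card : ℝ) *
      (1 + s ^ 2) ^ n ≤ (ρ ^ n * 2 ^ L) * (1 + s ^ 2) ^ n := by
    refine h2.trans ((mul_le_mul_of_nonneg_left h1 (by positivity)).trans (le_of_eq ?_))
    rw [div_pow, mul_pow]
    field_simp
  exact le_of_mul_le_mul_right h3 (by positivity)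

end facts

theorem maj_mono (RHO : S_RHO) {O : Set (ℕ →. ℕ)} {ev : List ℕ → ℕ → Option ℕ}
    (hev : Computable₂ ev) (hm : Mono ev) {q : ℕ → Prop} (hq : RP O q) (hpos : 0 < cm (Cl q))
    {g : ℕ → ℕ} (hg : RecT O g) (hmono : Monotone g)
    (hconv : ∀ X ∈ Cl q, ∀ x, ∃ y, ev (pre (J G0 X) (g x)) x = some y) {k : ℕ} (hk : 1 ≤ k) :
    ∃ q' : ℕ → Prop, RP O q' ∧ 0 < cm (Cl q') ∧ Cl q' ⊆ Cl q ∧ Cl q' ⊆ App O ev k := by
  obtain ⟨ρ, h0, h1, hρ⟩ := RHO k hk
  have htail : ∀ N : ℕ, ∑' j : ℕ, ENNReal.ofReal (ρ ^ (N + j)) =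
      ENNReal.ofReal (ρ ^ N / (1 - ρ)) := by
    intro N
    have e : ∀ j : ℕ, ρ ^ (N + j) = ρ ^ N * ρ ^ j := fun j => pow_add _ _ _
    rw [← ENNReal.ofReal_tsum_of_nonneg (fun j => by positivity)]
    · congr 1
      simp_rw [e]
      rw [tsum_mul_left, tsum_geometric_of_lt_one h0.le h1]
      rfl
    · simp_rw [e]
      exact (summable_geometric_of_lt_one h0.le h1).mul_left _
  obtain ⟨N, hN⟩ : ∃ N : ℕ, ENNReal.ofReal (ρ ^ N / (1 - ρ)) < cm (Cl q) := by
    have hlim : Tendsto (fun N : ℕ => ENNReal.ofReal (ρ ^ N / (1 - ρ))) atTop (𝓝 0) := by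
      have h2 : Tendsto (fun N : ℕ => ρ ^ N / (1 - ρ)) atTop (𝓝 (0 / (1 - ρ))) :=
        (tendsto_pow_atTop_nhds_zero_of_lt_one h0.le h1).div_const _
      rw [zero_div] at h2
      have h3 := ENNReal.tendsto_ofReal h2
      rwa [ENNReal.ofReal_zero] at h3
    exact (hlim.eventually (gt_mem_nhds hpos)).exists
  let q' : ℕ → Prop := fun z => q z ∨ ∃ n < z.unpair.1 + 1, N ≤ n ∧ g n ≤ z.unpair.1 ∧
    BB ev g k n z.unpair.2
  have hq' : RP O q' := by
    refine RP.or hq ?_
    -- `w = pair z n`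
    have hn : RecT O (fun w : ℕ => w.unpair.2) := RecT.snd recT_id
    have hK : RecT O (fun w : ℕ => w.unpair.1.unpair.2) := RecT.snd (RecT.fst recT_id)
    have hE : RecT O (fun w => EE ev g w.unpair.2 (cc ev g k w.unpair.2) w.unpair.1.unpair.2) :=
      rec_EE hev hg hn (RecT.comp (rec_cc k hev hg) hn) hK
    have h2 := RP.and (RP.le (recT_const N) hn) (RP.and
      (RP.le (RecT.comp hg hn) (RecT.fst (RecT.fst recT_id))) (RP.and (rp_al hev hg hn hK)
        (RP.lt (RecT.mul (recT_const (k + 1)) hn) (RecT.mul (recT_const (2 * k)) hE))))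
    refine RP.congr (RP.bex h2 (RecT.add (RecT.fst recT_id) (recT_const 1))) ?_
    intro z
    simp [BB, Far]
  have hBB : ∀ (X : ℕ → Bool) (n t : ℕ), g n ≤ t → (BB ev g k n (enc X t) ↔
      BB ev g k n (enc X (g n))) := by
    intro X n t ht
    have hgi : ∀ i < n, g i ≤ g n := fun i hi => hmono hi.le
    rw [← enc_mod X ht]
    unfold BB
    rw [al_mod hgi, EE_mod hgi]
  have hCl : ∀ X, X ∈ Cl q' ↔ X ∈ Cl q ∧ ∀ n, N ≤ n → ¬ BB ev g k n (enc X (g n)) := by
    intro X
    constructor
    · intro hX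
      refine ⟨fun n hn => hX n (Or.inl hn), fun n hn hb => ?_⟩
      refine hX (max n (g n)) (Or.inr ⟨n, ?_, hn, ?_, ?_⟩)
      · simp only [Nat.unpair_pair]
        have := le_max_left n (g n)
        omega
      · simp only [Nat.unpair_pair]
        exact le_max_right _ _
      · simp only [Nat.unpair_pair]
        exact (hBB X n _ (le_max_right _ _)).2 hb
    · rintro ⟨h2, h3⟩ n (hn | ⟨m, _, hm2, hm3, hm4⟩)
      · exact h2 n hn
      · simp only [Nat.unpair_pair] at hm3 hm4
        exact h3 m hm2 ((hBB X m n hm3).1 hm4)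
  refine ⟨q', hq', ?_, fun X hX => ((hCl X).1 hX).1, ?_⟩
  · by_contra hc
    have hc' : cm (Cl q') = 0 := by simpa using hc
    have hsub : Cl q ⊆ Cl q' ∪ ⋃ j : ℕ, {X | BB ev g k (N + j) (enc X (g (N + j)))} := by
      intro X hX
      by_cases h : X ∈ Cl q'
      · exact Or.inl h
      · right
        rw [hCl] at h
        push Not at h
        obtain ⟨n, hn, hb⟩ := h hX
        obtain ⟨j, rfl⟩ := Nat.exists_eq_add_of_le hn
        exact Set.mem_iUnion.2 ⟨j, hb⟩
    have hle : cm (Cl q) ≤ ENNReal.ofReal (ρ ^ N / (1 - ρ)) := by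
      refine (measure_mono hsub).trans ((measure_union_le _ _).trans ?_)
      rw [hc', zero_add]
      refine (measure_iUnion_le _).trans ?_
      rw [← htail N]
      refine ENNReal.tsum_le_tsum fun j => ?_
      rw [← ENNReal.ofReal_toReal (measure_ne_top cm _)]
      exact ENNReal.ofReal_le_ofReal (card_BB hk hmono h0 hρ (N + j) (g (N + j))
        fun i hi => hmono hi.le)
    exact absurd hN (not_lt.2 hle)
  · intro X hX u hu
    obtain ⟨hX1, hX2⟩ := (hCl X).1 hX
    refine ⟨vt ev g k, rec_vt k hev hg, vt_le k, N, fun m hmN hf => ?_⟩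
    apply hX2 m hmN
    have hval : ∀ i < m, us ev g (enc X (g m)) i = u i + 1 := by
      intro i hi
      obtain ⟨y, hy⟩ := hconv X hX1 i
      obtain ⟨t, ht⟩ := hu i
      have e : y = u i := by
        have h2 := hm _ _ _ _ (pre_prefix (J G0 X) (le_max_left (g i) t)) hy
        have h3 := hm _ _ _ _ (pre_prefix (J G0 X) (le_max_right (g i) t)) ht
        rw [h2] at h3
        exact Option.some.inj h3
      unfold us
      rw [enc_mod X (hmono hi.le), seg_enc, hy, e]
      simp
    refine ⟨fun i hi => ?_, ?_⟩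
    · rw [hval i hi]
      omega
    · have e : EE ev g m (cc ev g k m) (enc X (g m)) = dd u (vt ev g k) m := by
        unfold EE
        rw [dis_dd]
        unfold dd
        congr 1
        apply Finset.filter_congr
        intro i hi
        have e2 : uu ev g (enc X (g m)) i = u i := by
          unfold uu
          rw [hval i (Finset.mem_range.1 hi)]
          omega
        rw [e2]
      rw [e]
      exact hf

theorem t_maj : S_RHO → S_MAJ := by
  intro RHO O ev hev hm q hq hpos g hg hconv k hk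
  have hg' : RecT O (fun x => ∑ i ∈ Finset.range (x + 1), g i) := by
    refine RecT.congr (recT_sum (RecT.comp hg (RecT.snd recT_id))
      (RecT.add recT_id (recT_const 1))) ?_
    intro x
    simp
  refine maj_mono RHO hev hm hq hpos hg' ?_ ?_ hk
  · intro x y hxy
    exact Finset.sum_le_sum_of_subset (Finset.range_mono (by omega))
  · intro X hX x
    obtain ⟨y, hy⟩ := hconv X hX x
    refine ⟨y, hm _ _ _ _ (pre_prefix _ ?_) hy⟩
    exact Finset.single_le_sum (f := g) (fun _ _ => Nat.zero_le _)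
      (Finset.mem_range.2 (Nat.lt_succ_self x))

end Pool.Agent.Q224.DG
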