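import Pool.Agent.Q205.DG.Stm

/-!
# Project DG, job RED: reduction of a class of pairs of positive measure to one coordinate
-/

set_option autoImplicit false

namespace Pool.Agent.Q224.DG

open Pool.Agent.Helper743 Pool.Agent.H166R3.HD Pool.Agent.Q205.DG
open MeasureTheory Filter Topology
open scoped Classical ENNReal

theorem rp_empty {O : Set (ℕ →. ℕ)} {w : ℕ → Prop} (h : RP ∅ w) : RP O w :=
  RecT.subst h (fun _ hg => absurd hg (Set.notMem_empty _))

theorem meas_encp (t : ℕ) (R : ℕ → ℕ → Prop) :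
    MeasurableSet {p : (ℕ → Bool) × (ℕ → Bool) | R (enc p.1 t) (enc p.2 t)} := by
  have h : Measurable (fun p : (ℕ → Bool) × (ℕ → Bool) => (enc p.1 t, enc p.2 t)) :=
    ((measurable_enc t).comp measurable_fst).prodMk ((measurable_enc t).comp measurable_snd)
  exact h (MeasurableSet.of_discrete (s := {z : ℕ × ℕ | R z.1 z.2}))

/-- a basic rectangle -/
def Dj (j a b : ℕ) : Set ((ℕ → Bool) × (ℕ → Bool)) := {p | enc p.1 j = a ∧ enc p.2 j = b}

theorem meas_Dj (j a b : ℕ) : MeasurableSet (Dj j a b) := meas_encp j (fun x y => x = a ∧ y = b)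

theorem cm2_Dj {j a b : ℕ} (ha : a < 2 ^ j) (hb : b < 2 ^ j) :
    cm2 (Dj j a b) = (2⁻¹ : ℝ≥0∞) ^ j * (2⁻¹ : ℝ≥0∞) ^ j := by
  have h : Dj j a b = {X | enc X j = a} ×ˢ {Y | enc Y j = b} := rfl
  rw [h]
  unfold cm2
  rw [Measure.prod_prod, cm_enc ha, cm_enc hb]

theorem meas_Cl2 (w : ℕ → Prop) : MeasurableSet (Cl2 w) := by
  have h : Cl2 w = ⋂ n, {p | ¬ w (Nat.pair n (Nat.pair (enc p.1 n) (enc p.2 n)))} := by
    ext p; simp [Cl2]
  rw [h]
  exact MeasurableSet.iInter fun n => meas_encp n (fun x y => ¬ w (Nat.pair n (Nat.pair x y)))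

theorem exists_dense {K : Set ((ℕ → Bool) × (ℕ → Bool))} (hK : MeasurableSet K)
    (T : ℕ → ℕ → ℕ → Prop)
    (hanti : Antitone fun n => {p : (ℕ → Bool) × (ℕ → Bool) | T n (enc p.1 n) (enc p.2 n)})
    (hKL : K = ⋂ n, {p : (ℕ → Bool) × (ℕ → Bool) | T n (enc p.1 n) (enc p.2 n)})
    (hpos : 0 < cm2 K) :
    ∃ j a b, a < 2 ^ j ∧ b < 2 ^ j ∧
      cm2 (Dj j a b \ K) < 8⁻¹ * ((2⁻¹ : ℝ≥0∞) ^ j * (2⁻¹ : ℝ≥0∞) ^ j) := by
  by_contra hc
  push Not at hc
  have hn : ∀ n, 8⁻¹ * cm2 K ≤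
      cm2 ({p : (ℕ → Bool) × (ℕ → Bool) | T n (enc p.1 n) (enc p.2 n)} \ K) := by
    intro n
    set S := ((Finset.range (2 ^ n)) ×ˢ (Finset.range (2 ^ n))).filter (fun z => T n z.1 z.2)
      with hS
    have hmemS : ∀ z ∈ S, z.1 < 2 ^ n ∧ z.2 < 2 ^ n ∧ T n z.1 z.2 := by
      intro z hz
      rw [hS, Finset.mem_filter, Finset.mem_product, Finset.mem_range, Finset.mem_range] at hz
      exact ⟨hz.1.1, hz.1.2, hz.2⟩
    have hL : {p : (ℕ → Bool) × (ℕ → Bool) | T n (enc p.1 n) (enc p.2 n)} =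
        ⋃ z ∈ S, Dj n z.1 z.2 := by
      ext p
      simp only [Set.mem_iUnion]
      constructor
      · intro hp
        refine ⟨(enc p.1 n, enc p.2 n), ?_, rfl, rfl⟩
        rw [hS, Finset.mem_filter, Finset.mem_product, Finset.mem_range, Finset.mem_range]
        exact ⟨⟨enc_lt _ _, enc_lt _ _⟩, hp⟩
      · rintro ⟨z, hz, h1, h2⟩
        have h3 := (hmemS z hz).2.2
        show T n (enc p.1 n) (enc p.2 n)
        rw [h1, h2]
        exact h3
    have h1 : cm2 K ≤ ∑ z ∈ S, ((2⁻¹ : ℝ≥0∞) ^ n * (2⁻¹ : ℝ≥0∞) ^ n) := by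
      have h2 : K ⊆ ⋃ z ∈ S, Dj n z.1 z.2 := by
        rw [← hL]
        intro p hp
        rw [hKL] at hp
        exact Set.mem_iInter.1 hp n
      refine (measure_mono h2).trans ((measure_biUnion_finset_le _ _).trans ?_)
      exact Finset.sum_le_sum fun z hz => (cm2_Dj (hmemS z hz).1 (hmemS z hz).2.1).le
    have h3 : cm2 ({p : (ℕ → Bool) × (ℕ → Bool) | T n (enc p.1 n) (enc p.2 n)} \ K) =
        ∑ z ∈ S, cm2 (Dj n z.1 z.2 \ K) := by
      have e : {p : (ℕ → Bool) × (ℕ → Bool) | T n (enc p.1 n) (enc p.2 n)} \ K =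
          ⋃ z ∈ S, (Dj n z.1 z.2 \ K) := by
        rw [hL]
        ext p
        simp only [Set.mem_iUnion, Set.mem_sdiff]
        constructor
        · rintro ⟨⟨z, hz, h⟩, hpK⟩
          exact ⟨z, hz, h, hpK⟩
        · rintro ⟨z, hz, h, hpK⟩
          exact ⟨⟨z, hz, h⟩, hpK⟩
      rw [e, measure_biUnion_finset]
      · intro z _ z' _ hzz
        refine Set.disjoint_left.2 ?_
        rintro p ⟨⟨h4, h5⟩, _⟩ ⟨⟨h6, h7⟩, _⟩
        exact hzz (Prod.ext (h4.symm.trans h6) (h5.symm.trans h7))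
      · intro z _
        exact (meas_Dj n z.1 z.2).diff hK
    rw [h3]
    refine (mul_le_mul_right h1 _).trans ?_
    rw [Finset.mul_sum]
    exact Finset.sum_le_sum fun z hz => hc n z.1 z.2 (hmemS z hz).1 (hmemS z hz).2.1
  have hlim : Tendsto (fun n => cm2 ({p : (ℕ → Bool) × (ℕ → Bool) |
      T n (enc p.1 n) (enc p.2 n)} \ K)) atTop (𝓝 0) := by
    have h1 := tendsto_measure_iInter_atTop (μ := cm2)
      (s := fun n => {p : (ℕ → Bool) × (ℕ → Bool) | T n (enc p.1 n) (enc p.2 n)} \ K)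
      (fun n => ((meas_encp n (T n)).diff hK).nullMeasurableSet)
      (fun m n hmn p hp => ⟨hanti hmn hp.1, hp.2⟩) ⟨0, measure_ne_top _ _⟩
    have e : ⋂ n, ({p : (ℕ → Bool) × (ℕ → Bool) | T n (enc p.1 n) (enc p.2 n)} \ K) = ∅ := by
      rw [Set.eq_empty_iff_forall_notMem]
      intro p hp
      rw [Set.mem_iInter] at hp
      apply (hp 0).2
      rw [hKL]
      exact Set.mem_iInter.2 fun n => (hp n).1
    rw [e, measure_empty] at h1
    exact h1
  have h0 := ge_of_tendsto' hlim hn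
  have h8 : (8⁻¹ : ℝ≥0∞) ≠ 0 := ENNReal.inv_ne_zero.2 (by norm_num)
  have h9 : 8⁻¹ * cm2 K = 0 := le_antisymm h0 zero_le
  rcases mul_eq_zero.1 h9 with h | h
  · exact h8 h
  · exact hpos.ne' h

/-- the points of the level set of the pairs over `X` -/
def VV (w : ℕ → Prop) (j b : ℕ) (X : ℕ → Bool) (t : ℕ) : Set (ℕ → Bool) :=
  {Y | enc Y j = b ∧ ∃ n < t+1, w (Nat.pair n (Nat.pair (enc X n) (enc Y n)))}

theorem VV_mono (w : ℕ → Prop) (j b : ℕ) (X : ℕ → Bool) : Monotone (VV w j b X) := by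
  rintro s t hst Y ⟨h1, n, h2, h3⟩
  exact ⟨h1, n, by omega, h3⟩

theorem VV_iUnion (w : ℕ → Prop) (j b : ℕ) (X : ℕ → Bool) :
    ⋃ t, VV w j b X t = {Y | enc Y j = b ∧ (X, Y) ∉ Cl2 w} := by
  ext Y
  simp only [Set.mem_iUnion]
  constructor
  · rintro ⟨t, h1, n, _, h3⟩
    exact ⟨h1, fun h => h n h3⟩
  · rintro ⟨h1, h2⟩
    have h3 : ¬ ∀ n, ¬ w (Nat.pair n (Nat.pair (enc X n) (enc Y n))) := h2
    push Not at h3
    obtain ⟨n, hn⟩ := h3
    exact ⟨n, h1, n, Nat.lt_succ_self n, hn⟩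

/-- the codes of the strings of the level set of the pairs over a string -/
def CC (w : ℕ → Prop) (j b t k l : ℕ) : Prop :=
  l % 2 ^ j = b ∧ ∃ n < t+1, w (Nat.pair n (Nat.pair (k % 2 ^ n) (l % 2 ^ n)))

theorem VV_eq (w : ℕ → Prop) {j b t : ℕ} (hjt : j ≤ t) (X : ℕ → Bool) :
    VV w j b X t = {Y | CC w j b t (enc X t) (enc Y t)} := by
  ext Y
  show (_ ∧ _) ↔ (_ ∧ _)
  rw [enc_mod Y hjt]
  refine and_congr_right fun _ => exists_congr fun n => and_congr_right fun hn => ?_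
  rw [enc_mod X (by omega), enc_mod Y (by omega)]

/-- too many of them -/
def HH (w : ℕ → Prop) (j b t k : ℕ) : Prop :=
  2 ^ t < 2 * 2 ^ j * ((Finset.range (2 ^ t)).filter (fun l => CC w j b t k l)).card

theorem HH_iff (w : ℕ → Prop) {j b t : ℕ} (hjt : j ≤ t) (X : ℕ → Bool) :
    HH w j b t (enc X t) ↔ (1 / 2 : ℝ) ^ j / 2 < cm.real (VV w j b X t) := by
  rw [VV_eq w hjt X, cm_encset_real t (fun l => CC w j b t (enc X t) l),
    lt_div_iff₀ (by positivity)]
  unfold HH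
  have h2 : (0 : ℝ) < 2 ^ j := by positivity
  have e : (1 / 2 : ℝ) ^ j / 2 * 2 ^ t = 2 ^ t / (2 * 2 ^ j) := by
    rw [one_div, inv_pow]
    field_simp
  rw [e, div_lt_iff₀ (by positivity)]
  constructor
  · intro h
    have h3 : ((2 ^ t : ℕ) : ℝ) < ((2 * 2 ^ j * ((Finset.range (2 ^ t)).filter
      (fun l => CC w j b t (enc X t) l)).card : ℕ) : ℝ) := by exact_mod_cast h
    push_cast at h3
    linarith
  · intro h
    have h3 : ((2 ^ t : ℕ) : ℝ) < ((2 * 2 ^ j * ((Finset.range (2 ^ t)).filter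
      (fun l => CC w j b t (enc X t) l)).card : ℕ) : ℝ) := by
      push_cast
      linarith
    exact_mod_cast h3

theorem rp_hh {O : Set (ℕ →. ℕ)} {w : ℕ → Prop} (hw : RP O w) (j b : ℕ) :
    RP O (fun z => HH w j b z.unpair.1 z.unpair.2) := by
  -- `y = pair (pair z l) n`
  have h1 : RP O (fun y => w (Nat.pair y.unpair.2 (Nat.pair
      (y.unpair.1.unpair.1.unpair.2 % 2 ^ y.unpair.2) (y.unpair.1.unpair.2 % 2 ^ y.unpair.2)))) :=
    RP.comp hw (RecT.pair (RecT.snd recT_id) (RecT.pair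
      (RecT.mod (RecT.snd (RecT.fst (RecT.fst recT_id))) (RecT.twopow (RecT.snd recT_id)))
      (RecT.mod (RecT.snd (RecT.fst recT_id)) (RecT.twopow (RecT.snd recT_id)))))
  have h2 : RP O (fun u => u.unpair.2 % 2 ^ j = b ∧ ∃ n < u.unpair.1.unpair.1 + 1,
      w (Nat.pair n (Nat.pair (u.unpair.1.unpair.2 % 2 ^ n) (u.unpair.2 % 2 ^ n)))) := by
    refine RP.and (RP.eq (RecT.mod (RecT.snd recT_id) (recT_const _)) (recT_const b)) ?_
    refine RP.congr (RP.bex h1 (RecT.add (RecT.fst (RecT.fst recT_id)) (recT_const 1))) ?_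
    intro u
    simp
  have h3 := RecT.count h2 (RecT.twopow (RecT.fst (recT_id (O := O))))
  refine RP.congr (RP.lt (RecT.twopow (RecT.fst recT_id))
    (RecT.mul (recT_const (2 * 2 ^ j)) h3)) ?_
  intro z
  simp [HH, CC]

theorem t_red : S_RED := by
  intro O1 O2 q1 q2 w hq1 hq2 hw hpos
  set K := (Cl q1 ×ˢ Cl q2) ∩ Cl2 w with hKdef
  have hKm : MeasurableSet K := ((meas_Cl q1).prod (meas_Cl q2)).inter (meas_Cl2 w)
  -- a dense rectangle
  let T : ℕ → ℕ → ℕ → Prop := fun n x y => ∀ m < n + 1, ¬ q1 (Nat.pair m (x % 2 ^ m)) ∧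
    ¬ q2 (Nat.pair m (y % 2 ^ m)) ∧ ¬ w (Nat.pair m (Nat.pair (x % 2 ^ m) (y % 2 ^ m)))
  have hT : ∀ (n : ℕ) (p : (ℕ → Bool) × (ℕ → Bool)), T n (enc p.1 n) (enc p.2 n) ↔
      ∀ m < n + 1, ¬ q1 (Nat.pair m (enc p.1 m)) ∧ ¬ q2 (Nat.pair m (enc p.2 m)) ∧
        ¬ w (Nat.pair m (Nat.pair (enc p.1 m) (enc p.2 m))) := by
    intro n p
    refine forall₂_congr fun m hm => ?_
    rw [enc_mod p.1 (show m ≤ n by omega), enc_mod p.2 (show m ≤ n by omega)]
  have hanti : Antitone fun n => {p : (ℕ → Bool) × (ℕ → Bool) | T n (enc p.1 n) (enc p.2 n)} := by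
    intro s t hst p hp
    have hp' := (hT t p).1 hp
    exact (hT s p).2 fun m hm => hp' m (by omega)
  have hKL : K = ⋂ n, {p : (ℕ → Bool) × (ℕ → Bool) | T n (enc p.1 n) (enc p.2 n)} := by
    ext p
    rw [Set.mem_iInter]
    constructor
    · rintro ⟨⟨h1, h2⟩, h3⟩ n
      exact (hT n p).2 fun m _ => ⟨h1 m, h2 m, h3 m⟩
    · intro h
      have h' : ∀ m, _ := fun m => (hT m p).1 (h m) m (Nat.lt_succ_self m)
      exact ⟨⟨fun m => (h' m).1, fun m => (h' m).2.1⟩, fun m => (h' m).2.2⟩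
  obtain ⟨j, a, b, ha, hb, hD⟩ := exists_dense hKm T hanti hKL hpos
  let q1' : ℕ → Prop := fun z => q1 z ∨ (j ≤ z.unpair.1 ∧ (¬ z.unpair.2 % 2 ^ j = a ∨
    HH w j b z.unpair.1 z.unpair.2))
  let q2' : ℕ → Prop := fun z => q2 z ∨ (j ≤ z.unpair.1 ∧ ¬ z.unpair.2 % 2 ^ j = b)
  have hq1' : RP O1 q1' := by
    refine RP.or hq1 (RP.and (RP.le (recT_const j) (RecT.fst recT_id)) (RP.or (RP.not
      (RP.eq (RecT.mod (RecT.snd recT_id) (recT_const _)) (recT_const a))) ?_))
    exact rp_hh (rp_empty hw) j b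
  have hq2' : RP O2 q2' := by
    refine RP.or hq2 (RP.and (RP.le (recT_const j) (RecT.fst recT_id)) (RP.not
      (RP.eq (RecT.mod (RecT.snd recT_id) (recT_const _)) (recT_const b))))
  have hCl1 : ∀ X, X ∈ Cl q1' ↔ X ∈ Cl q1 ∧ enc X j = a ∧ ∀ t, j ≤ t →
      ¬ HH w j b t (enc X t) := by
    intro X
    constructor
    · intro hX
      refine ⟨fun n hn => hX n (Or.inl hn), ?_, ?_⟩
      · by_contra hne
        refine hX j (Or.inr ⟨?_, Or.inl ?_⟩)
        · simp
        · simp only [Nat.unpair_pair]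
          rw [enc_mod X le_rfl]
          exact hne
      · intro t ht hh
        refine hX t (Or.inr ⟨?_, Or.inr ?_⟩)
        · simpa using ht
        · simpa using hh
    · rintro ⟨h1, h2, h3⟩ n (hn | ⟨hn1, hn2⟩)
      · exact h1 n hn
      · simp only [Nat.unpair_pair] at hn1 hn2
        rcases hn2 with hn2 | hn2
        · rw [enc_mod X hn1] at hn2
          exact hn2 h2
        · exact h3 n hn1 hn2
  have hCl2 : ∀ Y, Y ∈ Cl q2' ↔ Y ∈ Cl q2 ∧ enc Y j = b := by
    intro Y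
    constructor
    · intro hY
      refine ⟨fun n hn => hY n (Or.inl hn), ?_⟩
      by_contra hne
      refine hY j (Or.inr ⟨?_, ?_⟩)
      · simp
      · simp only [Nat.unpair_pair]
        rw [enc_mod Y le_rfl]
        exact hne
    · rintro ⟨h1, h2⟩ n (hn | ⟨hn1, hn2⟩)
      · exact h1 n hn
      · simp only [Nat.unpair_pair] at hn1 hn2
        rw [enc_mod Y hn1] at hn2
        exact hn2 h2
  -- the constants
  set c : ℝ := (1 / 2) ^ j with hc
  have hc0 : 0 < c := by positivity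
  have hcE : (2⁻¹ : ℝ≥0∞) ^ j = ENNReal.ofReal c := by
    rw [hc, ENNReal.ofReal_pow (by norm_num)]
    congr 1
    rw [one_div, ENNReal.ofReal_inv_of_pos (by norm_num)]
    norm_num
  have hA : cm.real {X | enc X j = a} = c := by
    unfold Measure.real
    rw [cm_enc ha, hcE, ENNReal.toReal_ofReal hc0.le]
  have hB : cm.real {Y | enc Y j = b} = c := by
    unfold Measure.real
    rw [cm_enc hb, hcE, ENNReal.toReal_ofReal hc0.le]
  have hD' : cm2.real (Dj j a b \ K) < c * c / 8 := by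
    unfold Measure.real
    rw [← ENNReal.toReal_ofReal (show 0 ≤ c * c / 8 by positivity),
      ENNReal.toReal_lt_toReal (measure_ne_top _ _) ENNReal.ofReal_ne_top]
    refine lt_of_lt_of_eq hD ?_
    rw [hcE, ← ENNReal.ofReal_mul hc0.le]
    have h8 : (8⁻¹ : ℝ≥0∞) = ENNReal.ofReal (8⁻¹) := by
      rw [ENNReal.ofReal_inv_of_pos (by norm_num)]
      norm_num
    rw [h8, ← ENNReal.ofReal_mul (by norm_num)]
    congr 1
    ring
  -- the sections
  set U : (ℕ → Bool) → Set (ℕ → Bool) := fun X => {Y | enc Y j = b ∧ (X, Y) ∉ Cl2 w} with hU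
  have hUle : ∀ X ∈ Cl q1', cm.real (U X) ≤ c / 2 := by
    intro X hX
    have h1 : ∀ t, cm (VV w j b X t) ≤ ENNReal.ofReal (c / 2) := by
      intro t
      have h2 : cm (VV w j b X (max t j)) ≤ ENNReal.ofReal (c / 2) := by
        have h3 := ((hCl1 X).1 hX).2.2 (max t j) (le_max_right _ _)
        rw [HH_iff w (le_max_right _ _) X, not_lt] at h3
        rw [← ENNReal.ofReal_toReal (measure_ne_top cm _)]
        exact ENNReal.ofReal_le_ofReal h3
      exact (measure_mono (VV_mono w j b X (le_max_left t j))).trans h2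
    have h4 : cm (U X) ≤ ENNReal.ofReal (c / 2) := by
      have e : U X = ⋃ t, VV w j b X t := (VV_iUnion w j b X).symm
      rw [e, (VV_mono w j b X).measure_iUnion]
      exact iSup_le h1
    unfold Measure.real
    refine (ENNReal.toReal_mono ENNReal.ofReal_ne_top h4).trans ?_
    rw [ENNReal.toReal_ofReal (by positivity)]
  have hUge : ∀ X, X ∈ Cl q1 → enc X j = a → X ∉ Cl q1' → c / 2 ≤ cm.real (U X) := by
    intro X h1 h2 h3
    rw [hCl1] at h3
    push Not at h3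
    obtain ⟨t, ht, hh⟩ := h3 h1 h2
    rw [HH_iff w ht X] at hh
    refine hh.le.trans (measureReal_mono ?_ (measure_ne_top _ _))
    have e : U X = ⋃ t, VV w j b X t := (VV_iUnion w j b X).symm
    rw [e]
    exact Set.subset_iUnion (VV w j b X) t
  -- the class is positive
  have hDK : MeasurableSet (Dj j a b \ K) := (meas_Dj j a b).diff hKm
  have hpos1 : 0 < cm (Cl q1') := by
    by_contra hcon
    have h0 : cm (Cl q1') = 0 := by simpa using hcon
    have h1 : ENNReal.ofReal (c / 2) * ENNReal.ofReal c ≤ cm2 (Dj j a b \ K) := by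
      unfold cm2
      rw [Measure.prod_apply hDK]
      have hS : MeasurableSet ({X | enc X j = a} \ Cl q1') :=
        (meas_encset j (fun x => x = a)).diff (meas_Cl q1')
      have h2 : ENNReal.ofReal c = cm ({X | enc X j = a} \ Cl q1') := by
        rw [measure_sdiff_null h0, cm_enc ha, hcE]
      rw [h2, ← lintegral_indicator_const hS]
      refine lintegral_mono fun X => ?_
      by_cases hX : X ∈ {X | enc X j = a} \ Cl q1'
      · rw [Set.indicator_of_mem hX]
        have h3 : ENNReal.ofReal (c / 2) ≤ cm {Y | enc Y j = b ∧ (X, Y) ∉ K} := by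
          by_cases hq : X ∈ Cl q1
          · have h4 := hUge X hq hX.1 hX.2
            have h5 : U X ⊆ {Y | enc Y j = b ∧ (X, Y) ∉ K} := by
              rintro Y ⟨h6, h7⟩
              exact ⟨h6, fun h8 => h7 h8.2⟩
            refine le_trans ?_ (measure_mono h5)
            rw [← ENNReal.ofReal_toReal (measure_ne_top cm (U X))]
            exact ENNReal.ofReal_le_ofReal h4
          · have h5 : {Y | enc Y j = b} ⊆ {Y | enc Y j = b ∧ (X, Y) ∉ K} := by
              intro Y h6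
              exact ⟨h6, fun h8 => hq h8.1.1⟩
            refine le_trans ?_ (measure_mono h5)
            rw [← ENNReal.ofReal_toReal (measure_ne_top cm {Y | enc Y j = b})]
            apply ENNReal.ofReal_le_ofReal
            have h7 : (cm {Y | enc Y j = b}).toReal = c := hB
            rw [h7]
            linarith
        refine h3.trans (measure_mono ?_)
        rintro Y ⟨h4, h5⟩
        exact ⟨⟨hX.1, h4⟩, h5⟩
      · rw [Set.indicator_of_notMem hX]
        exact zero_le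
    have h2 : c / 2 * c ≤ cm2.real (Dj j a b \ K) := by
      unfold Measure.real
      rw [← ENNReal.ofReal_mul (by positivity)] at h1
      exact (ENNReal.ofReal_le_iff_le_toReal (measure_ne_top _ _)).1 h1
    nlinarith
  -- the second class is large
  have hbig : 7 / 8 * c ≤ cm.real (Cl q2') := by
    have h1 : cm2.real (Dj j a b) = c * c := by
      unfold Measure.real
      rw [cm2_Dj ha hb, hcE, ← ENNReal.ofReal_mul hc0.le, ENNReal.toReal_ofReal (by positivity)]
    have h2 : Dj j a b ⊆ (Dj j a b \ K) ∪ ({X | enc X j = a} ×ˢ Cl q2') := by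
      intro p hp
      by_cases h : p ∈ K
      · right
        exact ⟨hp.1, (hCl2 _).2 ⟨h.1.2, hp.2⟩⟩
      · left
        exact ⟨hp, h⟩
    have h3 : cm2.real (Dj j a b) ≤ cm2.real (Dj j a b \ K) +
        cm2.real ({X | enc X j = a} ×ˢ Cl q2') :=
      (measureReal_mono h2 (measure_ne_top _ _)).trans (measureReal_union_le _ _)
    have h4 : cm2.real ({X | enc X j = a} ×ˢ Cl q2') = c * cm.real (Cl q2') := by
      unfold cm2
      rw [measureReal_prod_prod, hA]
    rw [h1, h4] at h3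
    have h5 : c * (7 / 8 * c) ≤ c * cm.real (Cl q2') := by nlinarith
    exact le_of_mul_le_mul_left h5 hc0
  refine ⟨q1', q2', hq1', hq2', fun X hX => ((hCl1 X).1 hX).1, fun Y hY => ((hCl2 Y).1 hY).1,
    hpos1, ?_⟩
  intro R hRm hR hRpos
  have hset : MeasurableSet ((R ×ˢ Cl q2') ∩ Cl2 w) := (hRm.prod (meas_Cl q2')).inter (meas_Cl2 w)
  have h1 : ENNReal.ofReal (3 / 8 * c) * cm R ≤ cm2 ((R ×ˢ Cl q2') ∩ Cl2 w) := by
    unfold cm2
    rw [Measure.prod_apply hset, ← lintegral_indicator_const hRm]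
    refine lintegral_mono fun X => ?_
    by_cases hX : X ∈ R
    · rw [Set.indicator_of_mem hX]
      have h2 := hUle X (hR hX)
      have h3 : Cl q2' ⊆ U X ∪ (Prod.mk X ⁻¹' ((R ×ˢ Cl q2') ∩ Cl2 w)) := by
        intro Y hY
        by_cases h : (X, Y) ∈ Cl2 w
        · right
          exact ⟨⟨hX, hY⟩, h⟩
        · left
          exact ⟨((hCl2 Y).1 hY).2, h⟩
      have h4 : cm.real (Cl q2') ≤ cm.real (U X) +
          cm.real (Prod.mk X ⁻¹' ((R ×ˢ Cl q2') ∩ Cl2 w)) :=
        (measureReal_mono h3 (measure_ne_top _ _)).trans (measureReal_union_le _ _)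
      have h5 : 3 / 8 * c ≤ cm.real (Prod.mk X ⁻¹' ((R ×ˢ Cl q2') ∩ Cl2 w)) := by linarith
      exact (ENNReal.ofReal_le_iff_le_toReal (measure_ne_top _ _)).2 h5
    · rw [Set.indicator_of_notMem hX]
      exact zero_le
  refine lt_of_lt_of_le ?_ h1
  exact ENNReal.mul_pos (ENNReal.ofReal_pos.2 (by positivity)).ne' hRpos.ne'

end Pool.Agent.Q224.DG
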